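import Mathlib

/-!
# Range sum `k p` in degree `(p - 1) / 2`

For every `k ≥ 2` and every prime `p ≥ 7` with `p ≥ k + 3`, the polynomial
`X ^ ((p - 1) / 2) + (X + 1) ^ ((p - 1) / 2) + k` over `ZMod p` has range sum `k p`,
degree exactly `(p - 1) / 2`, and is not of the form
`c ((a x + b) ^ ((p - 1) / 2) + 1) + d`, not even as a function.
-/

open Polynomial

namespace Pool.Agent.Results.MP_1e20d6_nt.RangeSumTwoChars

/-- The range sum of a polynomial over `ZMod p`: every value is read as its representative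
in `{0, ..., p - 1}` and the values are added as natural numbers. -/
def rangeSum (p : ℕ) [NeZero p] (P : (ZMod p)[X]) : ℕ := ∑ x : ZMod p, (P.eval x).val

/-- The polynomial used. -/
noncomputable def poly (p k : ℕ) : (ZMod p)[X] :=
  X ^ ((p - 1) / 2) + (X + C 1) ^ ((p - 1) / 2) + C (k : ZMod p)

lemma half_eq {p : ℕ} (hp : p.Prime) (h7 : 7 ≤ p) : (p - 1) / 2 = p / 2 := by
  have := hp.eq_two_or_odd
  omega

lemma eval_poly (p k : ℕ) [Fact p.Prime] (h7 : 7 ≤ p) (x : ZMod p) :
    (poly p k).eval x =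
      ((quadraticChar (ZMod p) x + quadraticChar (ZMod p) (x + 1) + (k : ℤ) : ℤ) : ZMod p) := by
  have hp : p.Prime := Fact.out
  have hch : ringChar (ZMod p) ≠ 2 := by
    rw [ZMod.ringChar_zmod_n]; omega
  have h1 := quadraticChar_eq_pow_of_char_ne_two' hch x
  have h2 := quadraticChar_eq_pow_of_char_ne_two' hch (x + 1)
  rw [ZMod.card] at h1 h2
  simp only [poly, eval_add, eval_pow, eval_X, eval_C, half_eq hp h7]
  push_cast
  rw [h1, h2]

lemma char_bd (p : ℕ) [Fact p.Prime] (x : ZMod p) :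
    -1 ≤ quadraticChar (ZMod p) x ∧ quadraticChar (ZMod p) x ≤ 1 := by
  by_cases hx : x = 0
  · subst hx
    simp
  · rcases quadraticChar_dichotomy hx with h | h <;> rw [h] <;> norm_num

lemma val_poly (p k : ℕ) [Fact p.Prime] (h7 : 7 ≤ p) (hk : 2 ≤ k) (hkp : k + 3 ≤ p)
    (x : ZMod p) :
    (((poly p k).eval x).val : ℤ) =
      quadraticChar (ZMod p) x + quadraticChar (ZMod p) (x + 1) + (k : ℤ) := by
  have h1 := char_bd p x
  have h2 := char_bd p (x + 1)
  obtain ⟨n, hn⟩ : ∃ n : ℕ, quadraticChar (ZMod p) x + quadraticChar (ZMod p) (x + 1) + (k : ℤ)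
      = n := by
    apply Int.eq_ofNat_of_zero_le
    have : (2 : ℤ) ≤ k := by exact_mod_cast hk
    linarith [h1.1, h2.1]
  rw [eval_poly p k h7 x, hn]
  have hlt : n < p := by
    have h3 : (n : ℤ) ≤ k + 2 := by rw [← hn]; linarith [h1.2, h2.2]
    have h4 : n ≤ k + 2 := by exact_mod_cast h3
    omega
  rw [Int.cast_natCast, ZMod.val_natCast_of_lt hlt]

lemma rangeSum_poly (p k : ℕ) [Fact p.Prime] (h7 : 7 ≤ p) (hk : 2 ≤ k) (hkp : k + 3 ≤ p) :
    rangeSum p (poly p k) = k * p := by
  have hch : ringChar (ZMod p) ≠ 2 := by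
    rw [ZMod.ringChar_zmod_n]; omega
  have hz : (rangeSum p (poly p k) : ℤ) = k * p := by
    unfold rangeSum
    push_cast
    rw [Finset.sum_congr rfl (fun x _ => val_poly p k h7 hk hkp x)]
    rw [Finset.sum_add_distrib, Finset.sum_add_distrib]
    have e1 : ∑ x : ZMod p, quadraticChar (ZMod p) x = 0 := quadraticChar_sum_zero hch
    have e2 : ∑ x : ZMod p, quadraticChar (ZMod p) (x + 1) = 0 := by
      rw [← e1]
      exact Fintype.sum_equiv (Equiv.addRight (1 : ZMod p)) _ _ (fun x => rfl)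
    rw [e1, e2]
    simp [ZMod.card]
    ring
  exact_mod_cast hz

lemma coeff_poly (p k : ℕ) [Fact p.Prime] (_h7 : 7 ≤ p) (j : ℕ) (hj : 0 < j) :
    (poly p k).coeff j =
      (if j = (p - 1) / 2 then 1 else 0) + (((p - 1) / 2).choose j : ZMod p) := by
  unfold poly
  rw [coeff_add, coeff_add, coeff_X_pow, coeff_X_add_C_pow, coeff_C, if_neg hj.ne']
  simp

lemma natDegree_poly (p k : ℕ) [Fact p.Prime] (h7 : 7 ≤ p) :
    (poly p k).natDegree = (p - 1) / 2 := by
  set m := (p - 1) / 2 with hm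
  have hm3 : 3 ≤ m := by omega
  apply le_antisymm
  · rw [natDegree_le_iff_coeff_eq_zero]
    intro N hN
    rw [coeff_poly p k h7 N (by omega), ← hm, if_neg (by omega), Nat.choose_eq_zero_of_lt hN]
    simp
  · apply le_natDegree_of_ne_zero
    rw [coeff_poly p k h7 m (by omega), ← hm, if_pos rfl, Nat.choose_self]
    have : (2 : ZMod p) ≠ 0 := by
      have h : ((2 : ℕ) : ZMod p) ≠ 0 := by
        intro h
        rw [ZMod.natCast_eq_zero_iff] at h
        have := Nat.le_of_dvd (by norm_num) h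
        omega
      exact_mod_cast h
    intro h
    apply this
    have : (1 : ZMod p) + ((1 : ℕ) : ZMod p) = 2 := by norm_num
    rw [← this]
    exact h

lemma natCast_ne_zero_of_lt (p n : ℕ) [Fact p.Prime] (h0 : 0 < n) (h : n < p) :
    (n : ZMod p) ≠ 0 := by
  intro h'
  rw [ZMod.natCast_eq_zero_iff] at h'
  have := Nat.le_of_dvd h0 h'
  omega

lemma choose_two_ne (p m : ℕ) [Fact p.Prime] (h7 : 7 ≤ p) (hm : m = (p - 1) / 2) :
    (m.choose (m - 2) : ZMod p) ≠ 0 := by
  have hp : p.Prime := Fact.out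
  rw [Ne, ZMod.natCast_eq_zero_iff]
  intro h
  have h1 : p ∣ m.factorial := by
    have := Nat.choose_mul_factorial_mul_factorial (n := m) (k := m - 2) (by omega)
    rw [← this]
    exact Dvd.dvd.mul_right (Dvd.dvd.mul_right h _) _
  rw [hp.dvd_factorial] at h1
  omega

lemma choose_one_ne (p m : ℕ) [Fact p.Prime] (h7 : 7 ≤ p) (hm : m = (p - 1) / 2) :
    (m.choose (m - 1) : ZMod p) ≠ 0 := by
  have hp : p.Prime := Fact.out
  rw [Ne, ZMod.natCast_eq_zero_iff]
  intro h
  have h1 : p ∣ m.factorial := by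
    have := Nat.choose_mul_factorial_mul_factorial (n := m) (k := m - 1) (by omega)
    rw [← this]
    exact Dvd.dvd.mul_right (Dvd.dvd.mul_right h _) _
  rw [hp.dvd_factorial] at h1
  omega

lemma not_form (p k : ℕ) [Fact p.Prime] (h7 : 7 ≤ p) (a b c d : ZMod p) (ha : a ≠ 0)
    (h : ∀ x : ZMod p, (poly p k).eval x = c * ((a * x + b) ^ ((p - 1) / 2) + 1) + d) :
    False := by
  set m := (p - 1) / 2 with hm
  have hm3 : 3 ≤ m := by omega
  -- the other side as a polynomial
  set r : ZMod p := b / a with hr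
  set t : ZMod p := c * a ^ m with ht
  set Q : (ZMod p)[X] := C t * (X + C r) ^ m + C (c + d) with hQ
  have hev : ∀ x : ZMod p, (poly p k - Q).eval x = 0 := by
    intro x
    rw [eval_sub, h x]
    simp only [hQ, eval_add, eval_mul, eval_pow, eval_X, eval_C]
    have : a * x + b = a * (x + r) := by
      rw [hr]; field_simp
    rw [this, mul_pow, ht]
    ring
  have hdegQ : Q.natDegree ≤ m := by
    rw [natDegree_le_iff_coeff_eq_zero]
    intro N hN
    rw [hQ, coeff_add, coeff_C_mul, coeff_X_add_C_pow, Nat.choose_eq_zero_of_lt hN, coeff_C,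
      if_neg (by omega)]
    simp
  have hdeg : (poly p k - Q).natDegree < Fintype.card (ZMod p) := by
    rw [ZMod.card]
    have h1 := natDegree_sub_le (poly p k) Q
    rw [natDegree_poly p k h7] at h1
    have h2 : max ((p - 1) / 2) Q.natDegree ≤ m := max_le (le_of_eq hm.symm) hdegQ
    omega
  have hz : poly p k - Q = 0 :=
    eq_zero_of_natDegree_lt_card_of_eval_eq_zero (poly p k - Q)
      (f := fun x : ZMod p => x) (fun x y hxy => hxy) hev hdeg
  have hPQ : poly p k = Q := sub_eq_zero.mp hz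
  have key : ∀ j, 0 < j → (if j = m then (1 : ZMod p) else 0) + (m.choose j : ZMod p)
      = t * (r ^ (m - j) * (m.choose j : ZMod p)) := by
    intro j hj
    have h1 := coeff_poly p k h7 j hj
    rw [hPQ] at h1
    rw [← h1, hQ, coeff_add, coeff_C_mul, coeff_X_add_C_pow, coeff_C, if_neg hj.ne', add_zero]
  have k0 := key m (by omega)
  have k1 := key (m - 1) (by omega)
  have k2 := key (m - 2) (by omega)
  rw [if_pos rfl, Nat.choose_self, Nat.sub_self, pow_zero] at k0
  rw [if_neg (by omega), show m - (m - 1) = 1 by omega, pow_one, zero_add] at k1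
  rw [if_neg (by omega), show m - (m - 2) = 2 by omega, zero_add] at k2
  have c1 := choose_one_ne p m h7 hm
  have c2 := choose_two_ne p m h7 hm
  have e0 : t = 2 := by
    have : (1 : ZMod p) + ((1 : ℕ) : ZMod p) = 2 := by norm_num
    rw [this] at k0
    simpa using k0.symm
  have e1 : t * r = 1 := by
    apply mul_right_cancel₀ c1
    rw [one_mul, mul_assoc]
    exact k1.symm
  have e2 : t * r ^ 2 = 1 := by
    apply mul_right_cancel₀ c2
    rw [one_mul, mul_assoc]
    exact k2.symm
  have e3 : (2 : ZMod p) = 1 := by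
    calc (2 : ZMod p) = t * (t * r ^ 2) := by rw [e2, e0]; ring
      _ = (t * r) ^ 2 := by ring
      _ = 1 := by rw [e1]; ring
  have : (1 : ZMod p) = 0 := by
    calc (1 : ZMod p) = 2 - 1 := by norm_num
      _ = 0 := by rw [e3]; ring
  exact one_ne_zero this

/-- For every `k ≥ 2` and every prime `p ≥ max (7, k + 3)` there is a polynomial `P` over
`ZMod p` with range sum `k p` and degree exactly `(p - 1) / 2` (so reduced, and not of degree
larger than `(p - 1) / 2`) which is not of the form `c ((a x + b) ^ ((p - 1) / 2) + 1) + d`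
with `a ≠ 0`, even as a function. So the assertion of the question fails for every `k ≥ 2`. -/
theorem result (k : ℕ) (hk : 2 ≤ k) (p : ℕ) [Fact p.Prime] (h7 : 7 ≤ p) (hkp : k + 3 ≤ p) :
    ∃ P : (ZMod p)[X], rangeSum p P = k * p ∧ P.natDegree = (p - 1) / 2 ∧
      ¬ ∃ a b c d : ZMod p, a ≠ 0 ∧
        ∀ x : ZMod p, P.eval x = c * ((a * x + b) ^ ((p - 1) / 2) + 1) + d := by
  refine ⟨poly p k, rangeSum_poly p k h7 hk hkp, natDegree_poly p k h7, ?_⟩
  rintro ⟨a, b, c, d, ha, h⟩
  exact not_form p k h7 a b c d ha h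

end Pool.Agent.Results.MP_1e20d6_nt.RangeSumTwoChars
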